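import Pool.Agent.Q214.WR.D

set_option autoImplicit false

/-!
The countable-or-perfect dichotomy for linear orders with a monotone relation whose points are
labelled by the classes of an equivalence relation.
-/

namespace Pool.Agent.Results.MP_5607ba_lc.LabelledOrders

open MeasureTheory

/-- `V` meets countably many classes of `R`, or there is a Borel map from the Cantor space to `V`
with pairwise `R`-inequivalent values. -/
def Dichotomy {Z : Type} [MeasurableSpace Z] (R : Z → Z → Prop) (V : Set Z) : Prop :=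
  (∃ S ⊆ V, S.Countable ∧ ∀ y ∈ V, ∃ z ∈ S, R y z) ∨
    ∃ f : (ℕ → Bool) → Z, Measurable f ∧ (∀ b, f b ∈ V) ∧ ∀ b b', b ≠ b' → ¬ R (f b) (f b')

/-- All Borel sets which are invariant under `R` satisfy the dichotomy. -/
def Hereditary {Z : Type} [MeasurableSpace Z] (R : Z → Z → Prop) : Prop :=
  ∀ V : Set Z, MeasurableSet V → (∀ z ∈ V, ∀ z', R z z' → z' ∈ V) → Dichotomy R V

/-- Linear orders on `ℕ` with a second binary relation. -/
abbrev Skeleton : Type := (ℕ → ℕ → Bool) × (ℕ → ℕ → Bool)

/-- `x.1` is a strict linear order and `x.2` is a monotone relation: it is preserved when its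
first argument decreases or its second argument increases. -/
structure MonotoneOrder (x : Skeleton) : Prop where
  irrefl : ∀ m, x.1 m m = false
  trans : ∀ m n k, x.1 m n = true → x.1 n k = true → x.1 m k = true
  total : ∀ m n, m ≠ n → x.1 m n = true ∨ x.1 n m = true
  left : ∀ m n k, x.1 m n = true → x.2 n k = true → x.2 m k = true
  right : ∀ m n k, x.2 m n = true → x.1 n k = true → x.2 m k = true

/-- Isomorphism of linear orders with a monotone relation, whose points carry labels in `X`; the
labels are considered up to the equivalence relation `E`. -/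
def LabelledIso {X : Type} (E : X → X → Prop) (z z' : Skeleton × (ℕ → X)) : Prop :=
  ∃ σ : Equiv.Perm ℕ, (∀ m n, z'.1.1 (σ m) (σ n) = z.1.1 m n) ∧
    (∀ m n, z'.1.2 (σ m) (σ n) = z.1.2 m n) ∧ ∀ m, E (z.2 m) (z'.2 (σ m))

/-- Let `E` be an equivalence relation on a Polish space `X` which is Borel, or which is analytic and
whose invariant Borel sets all satisfy the dichotomy. Then the dichotomy holds for all invariant
Borel sets of linear orders with a monotone relation whose points are labelled by classes of `E`. -/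
theorem result : ∀ (X : Type) [TopologicalSpace X] [PolishSpace X] [MeasurableSpace X] [BorelSpace X]
    (E : X → X → Prop), Equivalence E →
    MeasurableSet {q : X × X | E q.1 q.2} ∨
      (AnalyticSet {q : X × X | E q.1 q.2} ∧ Hereditary E) →
    ∀ V : Set (Skeleton × (ℕ → X)), MeasurableSet V → (∀ z ∈ V, MonotoneOrder z.1) →
      (∀ z ∈ V, ∀ z', LabelledIso E z z' → z' ∈ V) → Dichotomy (LabelledIso E) V := by
  have part2 : ∀ (X : Type) [TopologicalSpace X] [PolishSpace X] [MeasurableSpace X] [BorelSpace X]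
      (E : X → X → Prop), Equivalence E → AnalyticSet {q : X × X | E q.1 q.2} → Hereditary E →
      ∀ V : Set (Skeleton × (ℕ → X)), MeasurableSet V → (∀ z ∈ V, MonotoneOrder z.1) →
        (∀ z ∈ V, ∀ z', LabelledIso E z z' → z' ∈ V) → Dichotomy (LabelledIso E) V := by
    intro X _ _ _ _ E hE hEa hEV V hV hV0 hinv
    have hlab : ∀ z z' : Skeleton × (ℕ → X), Q214.WR.Lab Q214.WR.SkT E z z' ↔
        LabelledIso E z z' := by
      intro z z'
      constructor
      · rintro ⟨π, ⟨σ, h1, h2, h3⟩, h4⟩
        exact ⟨σ, h2, h3, fun m => by rw [← h1]; exact h4 m⟩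
      · rintro ⟨σ, h2, h3, h4⟩
        exact ⟨σ, ⟨σ, fun _ => rfl, h2, h3⟩, h4⟩
    have hsk : PolishSpace Q214.WR.Skel := by
      have i1 : SecondCountableTopology Q214.WR.Skel := inferInstance
      have i2 : TopologicalSpace.IsCompletelyMetrizableSpace Q214.WR.Skel := inferInstance
      exact { toSecondCountableTopology := i1, toIsCompletelyMetrizableSpace := i2 }
    rcases Q214.WR.core (Y := Q214.WR.Skel) (I := ℕ) Q214.WR.SkT_grp Q214.WR.SkT_analytic hE hEa
      (fun W hW hWi => hEV W hW hWi) (Y0 := {x | Q214.WR.IsMono x})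
      (fun W hW hW0 hWi => Q214.WR.skel_nat W hW hW0 hWi) V hV
      (fun z hz => ⟨(hV0 z hz).irrefl, (hV0 z hz).trans, (hV0 z hz).total, (hV0 z hz).left,
        (hV0 z hz).right⟩)
      (fun z hz z' h => hinv z hz z' ((hlab z z').1 h)) with ⟨S, h1, h2, h3⟩ | ⟨f, h1, h2, h3⟩
    · left
      refine ⟨S, h1, h2, fun y hy => ?_⟩
      obtain ⟨z, hz, hL⟩ := h3 y hy
      exact ⟨z, hz, (hlab _ _).1 hL⟩
    · right
      exact ⟨f, h1, h2, fun b b' hb hc => h3 b b' hb ((hlab _ _).2 hc)⟩
  intro X _ _ _ _ E hE hB V hV hV0 hinv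
  rcases hB with hB | ⟨hEa, hEV⟩
  · refine part2 X E hE hB.analyticSet ?_ V hV hV0 hinv
    intro W hW _
    rcases Pool.Agent.H579R3.SV.silver (E := E) hE hB hW.analyticSet with h | ⟨f, h1, h2, h3⟩
    · exact Or.inl h
    · exact Or.inr ⟨f, h1.measurable, h2, h3⟩
  · exact part2 X E hE hEa hEV V hV hV0 hinv

end Pool.Agent.Results.MP_5607ba_lc.LabelledOrders
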