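import Pool.Agent.Results.MP_5df2c5_lc.ForbiddenSubgraphs
import Pool.Agent.Q216.TW.Trans
import Pool.Agent.Q216.TW.Neg

set_option autoImplicit false

/-!
The countable-or-perfect dichotomy for the two-sided translation actions `(h, k) g = h g k⁻¹` of
products `H × K` of closed subgroups on the group of all permutations of `ℕ`: it holds for the
automorphism groups of structures whose Gaifman graphs are locally finite off a finite set, and for
the stabilisers of two partitions of `ℕ`, one into sets of size `j ≥ 2` and one into infinite sets,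
it is equivalent to the strong Vaught conjecture.
-/

namespace Pool.Agent.Results.MP_5607ba_lc.TwoSidedTranslations

/-- The Borel sets of permutations of `ℕ`, for the topology of pointwise convergence. -/
abbrev borelPerm : MeasurableSpace (Equiv.Perm ℕ) :=
  MeasurableSpace.comap (fun g : Equiv.Perm ℕ => (g : ℕ → ℕ)) inferInstance

/-- `g` and `g'` are in the same orbit of `H × K`, i.e. in the same double coset. -/
def DoubleCoset (H K : Subgroup (Equiv.Perm ℕ)) (g g' : Equiv.Perm ℕ) : Prop :=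
  ∃ h ∈ H, ∃ k ∈ K, g' = h * g * k

/-- The dichotomy for the action of `H × K` by two-sided translations: every Borel set `B = H B K`
of permutations consists of countably many double cosets, or there is a continuous map from the
Cantor space to `B` whose values are in different double cosets. -/
def CountableOrPerfect (H K : Subgroup (Equiv.Perm ℕ)) : Prop :=
  ∀ B : Set (Equiv.Perm ℕ), @MeasurableSet _ borelPerm B →
    (∀ g g', DoubleCoset H K g g' → g ∈ B → g' ∈ B) →
    (∃ f : ℕ → Equiv.Perm ℕ, ∀ g ∈ B, ∃ n, DoubleCoset H K (f n) g) ∨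
    (∃ c : (ℕ → Bool) → Equiv.Perm ℕ, (∀ n, Continuous fun s => c s n) ∧ (∀ s, c s ∈ B) ∧
      ∀ s t, DoubleCoset H K (c s) (c t) → s = t)

/-- Relational structures on `ℕ` with relations of arities `a 0, a 1, ...`. -/
abbrev Str (a : ℕ → ℕ) : Type := (i : ℕ) → (Fin (a i) → ℕ) → Bool

/-- Isomorphism of structures. -/
def Iso {a : ℕ → ℕ} (x y : Str a) : Prop :=
  ∃ σ : Equiv.Perm ℕ, ∀ (i : ℕ) (v : Fin (a i) → ℕ), y i (⇑σ ∘ v) = x i v

/-- The automorphism group of a structure. -/
def Aut {a : ℕ → ℕ} (x : Str a) : Subgroup (Equiv.Perm ℕ) where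
  carrier := {σ | ∀ (i : ℕ) (v : Fin (a i) → ℕ), x i (⇑σ ∘ v) = x i v}
  one_mem' := fun _ _ => rfl
  mul_mem' := fun {σ τ} hσ hτ i v => (hσ i (⇑τ ∘ v)).trans (hτ i v)
  inv_mem' := fun {σ} hσ i v => by
    rw [← hσ i]
    exact congrArg (x i) (funext fun j => σ.apply_symm_apply (v j))

/-- All but finitely many elements have finite degree in the Gaifman graph (two elements are
adjacent if they occur together in a tuple of one of the relations). -/
def AlmostLocallyFinite {a : ℕ → ℕ} (x : Str a) : Prop :=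
  {u : ℕ | {w : ℕ | ∃ (i : ℕ) (t : Fin (a i) → ℕ),
    x i t = true ∧ u ∈ Set.range t ∧ w ∈ Set.range t}.Infinite}.Finite

/-- The number of the block of `n` in a partition of `ℕ` into infinitely many sets of size `j`. -/
def block (j : ℕ∞) (n : ℕ) : ℕ := if j = ⊤ then n.unpair.1 else n / j.toNat

/-- The group of the permutations which preserve this partition, i.e. the wreath product
`Sym(j) ≀ Sym(ℕ)`. -/
def blockStabiliser (j : ℕ∞) : Subgroup (Equiv.Perm ℕ) where
  carrier := {σ | ∀ m n, block j (σ m) = block j (σ n) ↔ block j m = block j n}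
  one_mem' := fun _ _ => Iff.rfl
  mul_mem' := fun {σ τ} hσ hτ m n => (hσ (τ m) (τ n)).trans (hτ m n)
  inv_mem' := fun {σ} hσ => Pool.Agent.Q216.TW.Pres.inv (σ := σ) hσ

/-- The perfect-set Vaught conjecture for the isomorphism-invariant Borel classes of structures in
the language with arities `a`. -/
def PerfectVaught (a : ℕ → ℕ) : Prop :=
  ∀ B : Set (Str a), MeasurableSet B → (∀ x y, Iso x y → (x ∈ B ↔ y ∈ B)) →
    (∃ f : ℕ → Str a, ∀ x ∈ B, ∃ n, Iso (f n) x) ∨
    (∃ g : (ℕ → Bool) → Str a, Continuous g ∧ (∀ c, g c ∈ B) ∧ ∀ c d, Iso (g c) (g d) → c = d)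

/-- The action of `H × K` is faithfully complete: for every invariant Borel class `B` of structures
(in any countable relational language) there are a Borel set `B' = H B' K` of permutations and a
Borel map `F` from `B'` to `B` that induces a bijection from the double cosets in `B'` to the
isomorphism types in `B`. -/
def FaithfullyComplete (H K : Subgroup (Equiv.Perm ℕ)) : Prop :=
  ∀ (a : ℕ → ℕ) (B : Set (Str a)), MeasurableSet B → (∀ x y, Iso x y → (x ∈ B ↔ y ∈ B)) →
    ∃ (B' : Set (Equiv.Perm ℕ)) (F : Equiv.Perm ℕ → Str a), @MeasurableSet _ borelPerm B' ∧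
      (∀ g g', DoubleCoset H K g g' → (g ∈ B' ↔ g' ∈ B')) ∧
      @Measurable (Equiv.Perm ℕ) (Str a) borelPerm inferInstance F ∧ (∀ g ∈ B', F g ∈ B) ∧
      (∀ g ∈ B', ∀ g' ∈ B', DoubleCoset H K g g' ↔ Iso (F g) (F g')) ∧
      ∀ x ∈ B, ∃ g ∈ B', Iso x (F g)

section positive

open Pool.Agent.Q216.TW
open Pool.Agent.Q216.MC (spiders)
open Pool.Agent.Results.MP_5df2c5_lc

private theorem dc_iff {a b : ℕ → ℕ} (x : Str a) (y : Str b) (g g' : Equiv.Perm ℕ) :
    DoubleCoset (Aut x) (Aut y) g g' ↔ TS x y g g' := by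
  constructor
  · rintro ⟨h, h1, k, h2, h3⟩
    exact ⟨h, k, h1, h2, h3⟩
  · rintro ⟨h, k, h1, h2, h3⟩
    exact ⟨h, h1, k, h2, h3⟩

private theorem main {a b : ℕ → ℕ} (x : Str a) (y : Str b)
    (hV : Pool.Agent.W889.VC.VCof True (Pool.Agent.W889.VC.Iso (a := cc a b))
      (fun z => Pool.Agent.W889.VC.Iso x (left z) ∧ Pool.Agent.W889.VC.Iso y (right z))) :
    CountableOrPerfect (Aut x) (Aut y) := by
  intro B hB hi
  have := transfer x y hV B hB fun g g' h => hi g g' ((dc_iff x y g g').2 h)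
  rcases this with ⟨f, hf⟩ | ⟨c, h1, h2, h3⟩
  · left
    refine ⟨f, fun g hg => ?_⟩
    obtain ⟨n, hn⟩ := hf g hg
    exact ⟨n, (dc_iff x y _ _).2 hn⟩
  · right
    exact ⟨c, h1, h2, fun s t hst => h3 s t ((dc_iff x y _ _).1 hst)⟩

/-- degrees in the spiders -/
private theorem no_spiders {G : SimpleGraph ℕ} (hG : {u : ℕ | {w | G.Adj u w}.Infinite}.Finite)
    (hc : spiders.IsContained G) : False := by
  obtain ⟨c⟩ := hc
  let φ : spiders →g G := c.toHom
  have hφ : Function.Injective φ := c.injective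
  have hinj : Function.Injective fun s : ℕ => φ (s, none) := by
    intro s t h
    have := hφ h
    exact (Prod.mk.inj this).1
  obtain ⟨u, ⟨s, rfl⟩, hs⟩ := (Set.infinite_range_of_injective hinj).exists_notMem_finite hG
  apply hs
  show {w | G.Adj (φ (s, none)) w}.Infinite
  have hinj2 : Function.Injective fun l : ℕ => φ (s, some (l, 0)) := by
    intro l l' h
    have := hφ h
    exact (Prod.mk.inj (Option.some.inj (Prod.mk.inj this).2)).1
  refine (Set.infinite_range_of_injective hinj2).mono ?_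
  rintro _ ⟨l, rfl⟩
  refine φ.map_adj ?_
  rw [Pool.Agent.Q216.MC.spiders, SimpleGraph.fromRel_adj]
  refine ⟨fun h => ?_, Or.inl ⟨rfl, Or.inl ⟨rfl, l, rfl⟩⟩⟩
  have := (Prod.mk.inj h).2
  exact absurd this (by simp)

private theorem alf_iso {a : ℕ → ℕ} {x y : Str a} (h : Pool.Agent.W889.VC.Iso x y)
    (hx : AlmostLocallyFinite x) : AlmostLocallyFinite y := by
  obtain ⟨σ, hσ⟩ := h
  unfold AlmostLocallyFinite at hx ⊢
  refine (hx.image σ).subset ?_
  intro u hu
  refine ⟨σ.symm u, ?_, σ.apply_symm_apply u⟩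
  show Set.Infinite _
  refine fun hf => hu ((hf.image σ).subset ?_)
  rintro w ⟨i, t, h1, ⟨p, hp⟩, ⟨q, hq⟩⟩
  refine ⟨σ.symm w, ⟨i, ⇑σ.symm ∘ t, ?_, ⟨p, ?_⟩, ⟨q, ?_⟩⟩, σ.apply_symm_apply w⟩
  · rw [← hσ, ← h1]
    congr 1
    funext j
    exact σ.apply_symm_apply (t j)
  · show σ.symm (t p) = _
    rw [hp]
  · show σ.symm (t q) = _
    rw [hq]

private theorem positive {a b : ℕ → ℕ} (x : Str a) (y : Str b) (hx : AlmostLocallyFinite x)
    (hy : AlmostLocallyFinite y) : CountableOrPerfect (Aut x) (Aut y) := by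
  refine main x y ?_
  have key := (ForbiddenSubgraphs.result.1 Unit (fun _ => ℕ × Option (ℕ × ℕ)) (fun _ => spiders)
    (fun G hG => ⟨(), Pool.Agent.Q216.MC.spiders_of G hG⟩)).2 (cc a b)
  intro B hB hinv hK
  let B' : Set (ForbiddenSubgraphs.UStr (cc a b)) := {p | p.1 ∈ B ∧ p.2 = fun _ _ => false}
  have hB' : MeasurableSet B' := by
    have h1 : MeasurableSet ({fun _ _ => false} : Set (ℕ → ℕ → Bool)) := measurableSet_singleton _
    exact (measurable_fst hB).inter (measurable_snd h1)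
  have hi : ∀ p q : ForbiddenSubgraphs.UStr (cc a b), ForbiddenSubgraphs.UIso p q →
      p ∈ B' → q ∈ B' := by
    rintro p q ⟨σ, h1, h2⟩ ⟨h3, h4⟩
    refine ⟨(hinv _ _ ⟨σ, h1⟩).1 h3, ?_⟩
    funext i u
    obtain ⟨u, rfl⟩ := σ.surjective u
    rw [h2, h4]
  have hs : ∀ p q : ForbiddenSubgraphs.UStr (cc a b), ForbiddenSubgraphs.UIso p q →
      ForbiddenSubgraphs.UIso q p := by
    rintro p q ⟨σ, h1, h2⟩
    refine ⟨σ.symm, fun i v => ?_, fun i u => ?_⟩
    · rw [← h1]
      have e : (⇑σ ∘ ⇑σ.symm ∘ v : Fin (cc a b i) → ℕ) = v := by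
        funext j
        exact σ.apply_symm_apply (v j)
      rw [e]
    · rw [← h2, σ.apply_symm_apply]
  have hfree : ∀ p ∈ B', ForbiddenSubgraphs.Free (ι := Unit)
      (V := fun _ => ℕ × Option (ℕ × ℕ)) (fun _ => spiders)
      (ForbiddenSubgraphs.gaifmanB p.1) := by
    rintro p ⟨h1, -⟩ _ hc
    obtain ⟨h2, h3⟩ := hK _ h1
    refine no_spiders ?_ hc
    refine ((alf_iso h2 hx).union (alf_iso h3 hy)).subset ?_
    intro u hu
    by_contra hcon
    have hcon1 := fun h => hcon (Or.inl h)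
    have hcon2 := fun h => hcon (Or.inr h)
    have f1 := Set.not_infinite.1 hcon1
    have f2 := Set.not_infinite.1 hcon2
    refine hu ((f1.union f2).subset ?_)
    intro w hw
    have hw' : ∃ (i : ℕ) (t : Fin (cc a b i) → ℕ),
        p.1 i t = true ∧ u ∈ Set.range t ∧ w ∈ Set.range t := by
      have hw1 : (ForbiddenSubgraphs.gaifmanB p.1).Adj u w := hw
      rw [ForbiddenSubgraphs.gaifmanB, SimpleGraph.fromRel_adj] at hw1
      rcases hw1.2 with h | ⟨i, t, h5, h6, h7⟩
      · exact h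
      · exact ⟨i, t, h5, h7, h6⟩
    obtain ⟨i, t, h5, h6, h7⟩ := hw'
    have gen : ∀ (s : ℕ ⊕ ℕ) (t : Fin (Sum.elim a b s) → ℕ), HC a b p.1 s t = true →
        u ∈ Set.range t → w ∈ Set.range t →
        w ∈ ({w : ℕ | ∃ (i : ℕ) (t : Fin (a i) → ℕ), left p.1 i t = true ∧ u ∈ Set.range t ∧
          w ∈ Set.range t} ∪ {w : ℕ | ∃ (i : ℕ) (t : Fin (b i) → ℕ), right p.1 i t = true ∧
          u ∈ Set.range t ∧ w ∈ Set.range t}) := by
      rintro (s | s) t h8 h9 h10
      · exact Or.inl ⟨s, t, h8, h9, h10⟩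
      · exact Or.inr ⟨s, t, h8, h9, h10⟩
    exact gen (ee i) t (by rw [HC_apply]; exact h5) h6 h7
  rcases key B' hB' (fun p q h => ⟨hi p q h, hi q p (hs p q h)⟩) hfree with
    ⟨f, hf⟩ | ⟨g, h1, h2, h3⟩
  · left
    refine ⟨fun n => (f n).1, fun z hz => ?_⟩
    obtain ⟨n, σ, hn, -⟩ := hf (z, fun _ _ => false) ⟨hz, rfl⟩
    exact ⟨n, σ, hn⟩
  · right
    refine ⟨fun c => (g c).1, fun _ => continuous_fst.comp h1, fun c => (h2 c).1,
      fun c d hcd => h3 c d ?_⟩
    obtain ⟨σ, hσ⟩ := hcd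
    refine ⟨σ, hσ, fun i u => ?_⟩
    rw [(h2 c).2, (h2 d).2]

end positive

section blocks

open Pool.Agent.Q216.TW

/-- the partition as a structure -/
private def bs (j : ℕ∞) : Str (fun _ => 2) := fun _ v => decide (block j (v 0) = block j (v 1))

private theorem aut_bs (j : ℕ∞) : Aut (bs j) = blockStabiliser j := by
  ext σ
  constructor
  · intro h m n
    have h1 : decide (block j (σ m) = block j (σ n)) = decide (block j m = block j n) :=
      h 0 ![m, n]
    exact decide_eq_decide.1 h1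
  · intro h i v
    show decide (block j (σ (v 0)) = block j (σ (v 1))) = decide (block j (v 0) = block j (v 1))
    exact decide_eq_decide.2 (h _ _)

private theorem block_fin {j : ℕ∞} (h : j ≠ ⊤) (n : ℕ) : block j n = n / j.toNat := if_neg h

private theorem toNat_le {j : ℕ∞} (h : j ≠ ⊤) {k : ℕ} (hk : (k : ℕ∞) ≤ j) : k ≤ j.toNat := by
  have := ENat.toNat_le_toNat hk h
  rwa [ENat.toNat_natCast] at this

private theorem bs_fin {j : ℕ∞} (h : j ≠ ⊤) (h1 : 1 ≤ j) : AlmostLocallyFinite (bs j) := by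
  unfold AlmostLocallyFinite
  refine Set.Finite.subset Set.finite_empty ?_
  intro u hu
  refine hu ?_
  have hj : 0 < j.toNat := toNat_le h (k := 1) (by simpa using h1)
  refine (Set.finite_lt_nat (j.toNat * (u / j.toNat + 1))).subset ?_
  rintro w ⟨i, t, h2, ⟨p, rfl⟩, ⟨q, rfl⟩⟩
  have h3 : block j (t 0) = block j (t 1) := of_decide_eq_true h2
  have h4 : block j (t p) = block j (t q) := by
    fin_cases p <;> fin_cases q
    · rfl
    · exact h3
    · exact h3.symm
    · rfl
  rw [block_fin h, block_fin h] at h4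
  show t q < _
  rw [h4]
  exact Nat.lt_mul_div_succ _ hj

private theorem blk {j : ℕ∞} (h2 : 2 ≤ j) : Blk (block j) ∧ Function.Surjective (block j) := by
  by_cases h : j = ⊤
  · subst h
    have e : ∀ n, block ⊤ n = n.unpair.1 := fun n => if_pos rfl
    have hp : ∀ b i, block ⊤ (Nat.pair b i) = b := fun b i => by rw [e, Nat.unpair_pair]
    refine ⟨⟨fun b b' => ?_, fun b => ⟨Nat.pair b 0, Nat.pair b 1, ?_, hp _ _, hp _ _⟩⟩,
      fun b => ⟨Nat.pair b 0, hp _ _⟩⟩
    · have hinf : ∀ b, {u | block ⊤ u = b}.Infinite := by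
        intro b
        have hinj : Function.Injective fun i => Nat.pair b i := fun i j h =>
          (Nat.pair_eq_pair.1 h).2
        refine (Set.infinite_range_of_injective hinj).mono ?_
        rintro _ ⟨i, rfl⟩
        exact hp b i
      exact eqv_of_inf (hinf b) (hinf b')
    · intro h
      have := (Nat.pair_eq_pair.1 h).2
      omega
  · have hj : 2 ≤ j.toNat := toNat_le h (by simpa using h2)
    have e : ∀ n, block j n = n / j.toNat := block_fin h
    have hb : ∀ b i, i < j.toNat → block j (j.toNat * b + i) = b := by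
      intro b i hi
      rw [e, Nat.mul_add_div (by omega), Nat.div_eq_of_lt hi, add_zero]
    refine ⟨⟨fun b b' => ?_, fun b => ⟨j.toNat * b + 0, j.toNat * b + 1, by omega,
      hb _ _ (by omega), hb _ _ (by omega)⟩⟩, fun b => ⟨j.toNat * b + 0, hb _ _ (by omega)⟩⟩
    have hf : ∀ b, {u // block j u = b} ≃ Fin j.toNat := fun b =>
      { toFun := fun u => ⟨u % j.toNat, Nat.mod_lt _ (by omega)⟩
        invFun := fun i => ⟨j.toNat * b + i, hb _ _ i.2⟩
        left_inv := fun u => by
          apply Subtype.ext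
          have h3 : (u : ℕ) / j.toNat = b := by rw [← e]; exact u.2
          show j.toNat * b + (u : ℕ) % j.toNat = u
          have h4 := Nat.div_add_mod (u : ℕ) j.toNat
          rw [h3] at h4
          exact h4
        right_inv := fun i => by
          apply Fin.ext
          show (j.toNat * b + i) % j.toNat = i
          rw [Nat.mul_add_mod, Nat.mod_eq_of_lt i.2] }
    exact ⟨(hf b).trans (hf b').symm⟩

private theorem ee_iff (j : ℕ∞) (g g' : Equiv.Perm ℕ) :
    DoubleCoset (blockStabiliser j) (blockStabiliser ⊤) g g' ↔ EE (block j) g g' := by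
  have e : block ⊤ = cl := by
    funext n
    exact if_pos rfl
  have e2 : ∀ k, k ∈ blockStabiliser ⊤ ↔ Pres cl k := by
    intro k
    rw [← e]
    exact Iff.rfl
  constructor
  · rintro ⟨h, h1, k, h2, h3⟩
    exact ⟨h, k, h1, (e2 k).1 h2, h3⟩
  · rintro ⟨h, k, h1, h2, h3⟩
    exact ⟨h, h1, k, (e2 k).2 h2, h3⟩

private theorem faithful' {j : ℕ∞} (h2 : 2 ≤ j) :
    FaithfullyComplete (blockStabiliser j) (blockStabiliser ⊤) := by
  intro a B hB hi
  obtain ⟨B', F, k1, k2, -, k4, k5, k6, k7⟩ := faithful (blk h2).1 (blk h2).2 a B hB hi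
  exact ⟨B', F, k1, fun g g' h => k2 g g' ((ee_iff j g g').1 h), k4, k5,
    fun g hg g' hg' => (ee_iff j g g').trans (k6 g hg g' hg'), k7⟩

private theorem hard {j : ℕ∞} (h2 : 2 ≤ j)
    (h : CountableOrPerfect (blockStabiliser j) (blockStabiliser ⊤)) (a : ℕ → ℕ) :
    PerfectVaught a := by
  let t : TopologicalSpace (Equiv.Perm ℕ) :=
    TopologicalSpace.induced (fun g : Equiv.Perm ℕ => (g : ℕ → ℕ)) inferInstance
  let m : MeasurableSpace (Equiv.Perm ℕ) := mP
  have hbs : BorelSpace (Equiv.Perm ℕ) := by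
    refine ⟨?_⟩
    have h1 : (inferInstance : MeasurableSpace (ℕ → ℕ)) = borel (ℕ → ℕ) :=
      BorelSpace.measurable_eq
    show MeasurableSpace.comap (fun g : Equiv.Perm ℕ => (g : ℕ → ℕ)) inferInstance = _
    rw [h1]
    exact borel_comap.symm
  have hF := faithful (blk h2).1 (blk h2).2
  have hV : Pool.Agent.W889.VC.VCof True (EE (block j)) (fun _ : Equiv.Perm ℕ => True) := by
    intro B hB hi _
    rcases h B hB (fun g g' hgg hg => (hi g g' ((ee_iff j g g').1 hgg)).1 hg) with
      ⟨f, hf⟩ | ⟨c, h3, h4, h5⟩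
    · left
      refine ⟨f, fun g hg => ?_⟩
      obtain ⟨n, hn⟩ := hf g hg
      exact ⟨n, (ee_iff j _ _).1 hn⟩
    · right
      refine ⟨c, fun _ => ?_, h4, fun s t hst => h5 s t ((ee_iff j _ _).2 hst)⟩
      exact continuous_induced_rng.2 (continuous_pi h3)
  have hfin := Pool.Agent.W889.VC.Faithful.vaught hF True hV a
  intro B hB hi
  rcases hfin B hB hi (fun _ _ => trivial) with ⟨f, hf⟩ | ⟨g, h3, h4, h5⟩
  · exact Or.inl ⟨f, hf⟩
  · exact Or.inr ⟨g, h3 trivial, h4, h5⟩

end blocks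

/-- **Theorem.** (1) Let `x` and `y` be countable structures, in countable relational languages, in
whose Gaifman graphs all but finitely many elements have finite degree. Then the dichotomy holds for
the two-sided translations of `Sym(ℕ)` by `Aut x` and `Aut y`.
(2) So it holds for the groups `Sym(j) ≀ Sym(ℕ)` and `Sym(k) ≀ Sym(ℕ)` with `j` and `k` finite.
(3) If `2 ≤ j ≤ ∞` then the two-sided translations of `Sym(ℕ)` by `Sym(j) ≀ Sym(ℕ)` and by
`Sym(ℕ) ≀ Sym(ℕ)` are faithfully complete, and the dichotomy for them is equivalent to the strong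
Vaught conjecture for all countable relational languages. -/
theorem result :
    (∀ (a b : ℕ → ℕ) (x : Str a) (y : Str b), AlmostLocallyFinite x → AlmostLocallyFinite y →
      CountableOrPerfect (Aut x) (Aut y)) ∧
    (∀ j k : ℕ∞, 1 ≤ j → j ≠ ⊤ → 1 ≤ k → k ≠ ⊤ →
      CountableOrPerfect (blockStabiliser j) (blockStabiliser k)) ∧
    ∀ j : ℕ∞, 2 ≤ j → FaithfullyComplete (blockStabiliser j) (blockStabiliser ⊤) ∧
      (CountableOrPerfect (blockStabiliser j) (blockStabiliser ⊤) ↔
        ∀ a : ℕ → ℕ, PerfectVaught a) := by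
  refine ⟨fun a b x y => positive x y, fun j k h1 h2 h3 h4 => ?_, fun j h2 => ⟨faithful' h2,
    fun h a => hard h2 h a, fun h => ?_⟩⟩
  · rw [← aut_bs, ← aut_bs]
    exact positive _ _ (bs_fin h2 h1) (bs_fin h4 h3)
  · rw [← aut_bs, ← aut_bs]
    refine main _ _ fun B hB hi _ => ?_
    rcases h _ B hB hi with ⟨f, hf⟩ | ⟨g, h3, h4, h5⟩
    · exact Or.inl ⟨f, hf⟩
    · exact Or.inr ⟨g, fun _ => h3, h4, h5⟩

end Pool.Agent.Results.MP_5607ba_lc.TwoSidedTranslations
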