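import Pool.Agent.Q214.WR.D

set_option autoImplicit false

/-!
The countable-or-perfect dichotomy is preserved by wreath products of actions of Polish groups.
-/

namespace Pool.Agent.Results.MP_5607ba_lc.WreathClosure

open MeasureTheory

/-- `V` meets countably many classes of `R`, or there is a Borel map from the Cantor space to `V`
with pairwise `R`-inequivalent values. -/
def Dichotomy {Z : Type} [MeasurableSpace Z] (R : Z → Z → Prop) (V : Set Z) : Prop :=
  (∃ S ⊆ V, S.Countable ∧ ∀ y ∈ V, ∃ z ∈ S, R y z) ∨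
    ∃ f : (ℕ → Bool) → Z, Measurable f ∧ (∀ b, f b ∈ V) ∧ ∀ b b', b ≠ b' → ¬ R (f b) (f b')

/-- All Borel sets which are invariant under `R` satisfy the dichotomy. -/
def Hereditary {Z : Type} [MeasurableSpace Z] (R : Z → Z → Prop) : Prop :=
  ∀ V : Set Z, MeasurableSet V → (∀ z ∈ V, ∀ z', R z z' → z' ∈ V) → Dichotomy R V

/-- The orbit equivalence relation of an action of `G` on `X`. -/
def Orbit (G : Type) {X : Type} [SMul G X] (x x' : X) : Prop := ∃ g : G, g • x = x'

/-- The orbit equivalence relation of the action of `H` on `Y × (I → ℕ)`; `H` acts on `Y` and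
permutes `I`. -/
def ColourOrbit (H : Type) {Y I : Type} [SMul H Y] [SMul H I] (z z' : Y × (I → ℕ)) : Prop :=
  ∃ h : H, z'.1 = h • z.1 ∧ ∀ i, z'.2 (h • i) = z.2 i

/-- The orbit equivalence relation of the action of the wreath product `G ≀ H = G ^ I ⋊ H` on
`Y × (I → X)`. -/
def WreathOrbit (G H : Type) {Y I X : Type} [SMul H Y] [SMul H I] [SMul G X]
    (z z' : Y × (I → X)) : Prop :=
  ∃ (h : H) (g : I → G), z'.1 = h • z.1 ∧ ∀ i, z'.2 (h • i) = g i • z.2 i

/-- Let `G`, `H` be Polish groups, `X` a Borel `G`-space, `Y` a Borel `H`-space and `I` a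
countable set on which `H` acts. If all invariant Borel subsets of `X` and of the `H`-space
`Y × (I → ℕ)` satisfy the dichotomy, then so do all invariant Borel subsets of the
`G ≀ H`-space `Y × (I → X)`. -/
theorem result : ∀ (G : Type) [TopologicalSpace G] [Group G] [IsTopologicalGroup G] [PolishSpace G]
    [MeasurableSpace G] [BorelSpace G] (X : Type) [MeasurableSpace X] [StandardBorelSpace X]
    [MulAction G X] [MeasurableSMul₂ G X]
    (H : Type) [TopologicalSpace H] [Group H] [IsTopologicalGroup H] [PolishSpace H]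
    [MeasurableSpace H] [BorelSpace H] (Y : Type) [MeasurableSpace Y] [StandardBorelSpace Y]
    [MulAction H Y] [MeasurableSMul₂ H Y]
    (I : Type) [Countable I] [Nonempty I] [MeasurableSpace I] [DiscreteMeasurableSpace I]
    [MulAction H I] [MeasurableSMul₂ H I],
    Hereditary (Orbit G (X := X)) → Hereditary (ColourOrbit H (Y := Y) (I := I)) →
      Hereditary (WreathOrbit G H (Y := Y) (I := I) (X := X)) := by
  intro G _ _ _ _ _ _ X _ _ _ _ H _ _ _ _ _ _ Y _ _ _ _ I _ _ _ _ _ _ hX hY V hV hinv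
  letI := upgradeStandardBorel X
  letI := upgradeStandardBorel Y
  have hlab : ∀ z z' : Y × (I → X),
      Q214.WR.Lab (Q214.WR.TH H Y I) (fun x x' : X => ∃ g : G, g • x = x') z z' ↔
      WreathOrbit G H z z' := by
    intro z z'
    constructor
    · rintro ⟨π, ⟨h, h1, h2⟩, h4⟩
      choose g hg using h4
      exact ⟨h, g, h1.symm, fun i => by rw [hg, h2]⟩
    · rintro ⟨h, g, h1, h2⟩
      exact ⟨fun i => h • i, ⟨h, h1.symm, fun _ => rfl⟩, fun i => ⟨g i, (h2 i).symm⟩⟩
  have hlabN : ∀ z z' : Y × (I → ℕ),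
      Q214.WR.Lab (Q214.WR.TH H Y I) (fun m n : ℕ => m = n) z z' ↔ ColourOrbit H z z' := by
    intro z z'
    constructor
    · rintro ⟨π, ⟨h, h1, h2⟩, h4⟩
      exact ⟨h, h1.symm, fun i => by rw [← h2]; exact (h4 i).symm⟩
    · rintro ⟨h, h1, h2⟩
      exact ⟨fun i => h • i, ⟨h, h1.symm, fun _ => rfl⟩, fun i => (h2 i).symm⟩
  rcases Q214.WR.core (X := X) (Y := Y) (I := I) (Q214.WR.TH_grp H Y I)
    (Q214.WR.TH_analytic H Y I) (Q214.WR.orbit_equiv G X) (Q214.WR.orbit_analytic G X)
    (fun W hW hWi => hX W hW hWi) (Y0 := Set.univ)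
    (fun W hW _ hWi => by
      rcases hY W hW (fun z hz z' h => hWi z hz z' ((hlabN z z').2 h)) with
        ⟨S, h1, h2, h3⟩ | ⟨f, h1, h2, h3⟩
      · left
        refine ⟨S, h1, h2, fun y hy => ?_⟩
        obtain ⟨z, hz, hL⟩ := h3 y hy
        exact ⟨z, hz, (hlabN _ _).2 hL⟩
      · right
        exact ⟨f, h1, h2, fun b b' hb hc => h3 b b' hb ((hlabN _ _).1 hc)⟩)
    V hV (fun z _ => Set.mem_univ _)
    (fun z hz z' h => hinv z hz z' ((hlab z z').1 h)) with ⟨S, h1, h2, h3⟩ | ⟨f, h1, h2, h3⟩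
  · left
    refine ⟨S, h1, h2, fun y hy => ?_⟩
    obtain ⟨z, hz, hL⟩ := h3 y hy
    exact ⟨z, hz, (hlab _ _).1 hL⟩
  · right
    exact ⟨f, h1, h2, fun b b' hb hc => h3 b b' hb ((hlab _ _).2 hc)⟩

end Pool.Agent.Results.MP_5607ba_lc.WreathClosure
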